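import Pool.Agent.Univ.Main

/-!
# Universal geometric graphs for planar graphs with `O(n^3 log^2 n)` edges

The vertices of the host graph are the points of an exponentially stretched grid of side `O(n)`.
Every triangulation has a Schnyder system of face sets (three regions for every vertex); with
weights on the faces the sizes of two of the regions are the coordinates of a crossing-free
drawing.  For the edges of one type with different heads the products
`(lost part of one region) x (lost part of the other region)` are disjoint, so only few heads have
edges with a large product; the weights can be chosen such that these heads lie on coarse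
sublattices, and then only `O(n^3 log^2 n)` pairs of grid points are used.
The file `Pool/Agent/Univ/Defs.lean` contains the definitions.
-/

namespace Pool.Agent.Results.MP_a45fd3_co.CubicUpperBound

open Pool.Agent.Univ

/-- There is a constant `C` such that for every `n ≥ 2` there is a geometric graph which contains
a crossing-free copy of every planar graph on `n` vertices and has at most `C n^3 (log n)^2`
edges; in particular `g n ≤ C n^3 (log n)^2`. -/
theorem result : ∃ C : ℝ, ∀ n : ℕ, 2 ≤ n →
    (∃ G : GeomGraph, Universal G n ∧
      (G.edges.card : ℝ) ≤ C * (n : ℝ) ^ 3 * (Real.log n) ^ 2) ∧
    (g n : ℝ) ≤ C * (n : ℝ) ^ 3 * (Real.log n) ^ 2 :=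
  result_bound

end Pool.Agent.Results.MP_a45fd3_co.CubicUpperBound
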